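import Mathlib
import Pool.Agent.J4.H76.LV.Rad

/-!
# Negative solutions of `Δu + p(|x|) q(e^u) = 4πN δ` need not be radially symmetric

There is one function `q` such that for all real `N, k ≥ 0` for which `N + k` is a positive integer, the
functions `p(r) = r^(2k)` and `q` satisfy all the hypotheses (H1)-(H8), while the equation
`Δu + p(|x|) q(e^u) = 4πN δ` on the plane has a negative solution which is not radially symmetric about
the origin, nor about any other point. Every real `N ≥ 0` occurs, and for positive integers `N` one can take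
`p = 1`.

Idea: hypotheses (H1)-(H8) allow `q(s) = s` for `0 < s ≤ 1/e`. For solutions with `u ≤ -1` the equation is then
the Liouville equation `Δu + |x|^(2k) e^u = 4πN δ`, which for `m = N + k ∈ {1, 2, ...}` has the non-radial
solutions `u = log (8 s² (m+1)² |x|^(2N) / (1 + |s x^(m+1) - 1|²)²)` (with the plane identified with `ℂ`),
and these are at most `-1` if `s > 0` is small.
-/

set_option autoImplicit false

namespace Pool.Agent.Results.MP_ad2fa1_an.NonRadial

open MeasureTheory Laplacian InnerProductSpace Filter Topology Set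

/-- The Euclidean plane. -/
abbrev Plane : Type := EuclideanSpace ℝ (Fin 2)

/-- The hypotheses (H1)-(H8) on `f(t) = e^{2t} p(e^t)` and `g(u) = q(e^u)`. -/
structure Hypotheses (f g : ℝ → ℝ) : Prop where
  /-- (H1) -/
  h1_f : ContDiff ℝ 1 f
  h1_g : ContDiff ℝ 1 g
  h1_int : IntegrableOn (fun t => |t * f t|) (Iic 0)
  h1_bdd : ∃ C : ℝ, ∀ u, |g u| + |deriv g u| ≤ C
  /-- (H2) -/
  h2_pos : ∀ t, 0 < f t
  h2_lim : Tendsto f atTop atTop
  h2_zero : g 0 = 0
  h2_gpos : ∀ u < 0, 0 < g u
  /-- (H3) -/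
  h3 : ∀ t, 0 ≤ deriv f t
  /-- (H4) -/
  h4 : ∃ M > 0, (∀ u < -M, 0 < deriv g u) ∧ IntegrableOn (fun t => f t * g (-M * t)) (Ioi 0)
  /-- (H5): the integral of `f(t) g(-M₀ t)` over `(0, ∞)` is infinite, where `M₀` is the infimum of all
  `M > 0` for which the integral of `f(t) g(-M t)` is finite; and `f(t - c)/f(t)` is bounded below on
  `(0, ∞)` by a positive constant, for each `c > 0` -/
  h5_inf : ¬ IntegrableOn (fun t => f t *
    g (-(sInf {M : ℝ | 0 < M ∧ IntegrableOn (fun t => f t * g (-M * t)) (Ioi 0)}) * t)) (Ioi 0)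
  h5_ratio : ∀ c > 0, ∃ δ > 0, ∀ t > 0, δ ≤ f (t - c) / f t
  /-- (H6) and (H7): the limits `f₁` of `F₁ = f'/f` at `∞` and `g₁` of `G₁ = G₀/g` at `-∞` exist, where
  `G₀(u)` is the integral of `g` over `(-∞, u]`, and `F₁ ≥ f₁` everywhere, `G₁ ≥ g₁` on `(-∞, 0)` -/
  h6_int : IntegrableOn g (Iic 0)
  h6_h7 : ∃ f₁ g₁ : ℝ, Tendsto (fun t => deriv f t / f t) atTop (𝓝 f₁) ∧
    Tendsto (fun u => (∫ s in Iic u, g s) / g u) atBot (𝓝 g₁) ∧
    (∀ t, f₁ ≤ deriv f t / f t) ∧ ∀ u < 0, g₁ ≤ (∫ s in Iic u, g s) / g u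
  /-- (H8) -/
  h8 : ∃ δ > 0, ∀ u ∈ Icc (-δ) 0, deriv g u ≤ 0

/-- `u` solves `Δu + p(|x|) q(e^u) = 4πN δ` in the sense of distributions on the plane, and is smooth away
from the origin. -/
structure IsSolution (N : ℝ) (p q : ℝ → ℝ) (u : Plane → ℝ) : Prop where
  smooth : ContDiffOn ℝ ((⊤ : ℕ∞) : WithTop ℕ∞) u {0}ᶜ
  locallyIntegrable : LocallyIntegrable u
  locallyIntegrable_nonlinearity : LocallyIntegrable (fun x => p ‖x‖ * q (Real.exp (u x)))
  distributional : ∀ φ : Plane → ℝ, ContDiff ℝ ((⊤ : ℕ∞) : WithTop ℕ∞) φ → HasCompactSupport φ →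
    ∫ x, (u x * Δ φ x + p ‖x‖ * q (Real.exp (u x)) * φ x) = 4 * Real.pi * N * φ 0

/-- `u` (a function on the plane without the origin) is radially symmetric about the point `c`:
`u(x)` depends only on `|x - c|`. -/
def RadialAbout (c : Plane) (u : Plane → ℝ) : Prop :=
  ∃ h : ℝ → ℝ, ∀ x, x ≠ 0 → u x = h ‖x - c‖

open Pool.Agent.J4.H76.LV

theorem hypotheses (k : ℝ) (hk : 0 ≤ k) :
    Hypotheses (fun t => Real.exp (2 * t) * (Real.exp t) ^ (2 * k))
      (fun u => (fun s => gg (Real.log s)) (Real.exp u)) := by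
  have ef : (fun t => Real.exp (2 * t) * (Real.exp t) ^ (2 * k)) = fun t => Real.exp ((2 + 2 * k) * t) := by
    funext t
    rw [← Real.exp_mul, ← Real.exp_add]
    congr 1
    ring
  have eg : (fun u => (fun s => gg (Real.log s)) (Real.exp u)) = gg := by
    funext u
    simp only [Real.log_exp]
  rw [ef, eg]
  obtain ⟨c, hc⟩ : ∃ c : ℝ, c = 2 + 2 * k := ⟨_, rfl⟩
  have hc0 : 2 ≤ c := by linarith
  have hcp : 0 < c := by linarith
  rw [← hc]
  have hd : ∀ t : ℝ, HasDerivAt (fun t => Real.exp (c * t)) (c * Real.exp (c * t)) t := by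
    intro t
    have := ((hasDerivAt_id t).const_mul c).exp
    refine this.congr_deriv ?_
    simp
    ring
  have hdf : ∀ t, deriv (fun t => Real.exp (c * t)) t = c * Real.exp (c * t) := fun t => (hd t).deriv
  refine ⟨?_, contDiff_gg, integrable_tf hcp, ⟨3, bound_gg⟩, fun t => Real.exp_pos _, ?_, gg_zero,
    fun u hu => gg_pos hu, ?_, ?_, ?_, ?_, integrableOn_gg le_rfl, ?_, ?_⟩
  · fun_prop
  · exact Real.tendsto_exp_atTop.comp (tendsto_id.const_mul_atTop hcp)
  · intro t
    rw [hdf]
    positivity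
  · refine ⟨c + 1, by linarith, fun u hu => ?_, integrable_fg (by linarith) (by linarith)⟩
    rw [deriv_gg, dgg_of_le (by linarith)]
    exact Real.exp_pos u
  · rw [set_eq hcp, csInf_Ioi]
    exact not_integrable_fg hcp le_rfl
  · intro d hd0
    refine ⟨Real.exp (-(c * d)), Real.exp_pos _, fun t _ => ?_⟩
    rw [← Real.exp_sub]
    apply Real.exp_le_exp.2
    apply le_of_eq
    ring
  · refine ⟨c, 1, ?_, tendsto_ratio, ?_, fun u hu => ratio_ge hu⟩
    · refine tendsto_const_nhds.congr fun t => ?_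
      rw [hdf]
      have := (Real.exp_pos (c * t)).ne'
      field_simp
    · intro t
      rw [hdf]
      have := (Real.exp_pos (c * t)).ne'
      apply le_of_eq
      field_simp
  · exact ⟨1 / 2, by norm_num, fun u hu => dgg_nonpos hu.1 hu.2⟩

/-- **Negative answer to Q1.** There is a function `q` such that for all reals `N ≥ 0`, `k ≥ 0` whose sum is a
positive integer `m`, the hypotheses (H1)-(H8) hold for `f(t) = e^{2t} p(e^t)`, `g(u) = q(e^u)` with
`p(r) = r^{2k}`, and the equation `Δu + p(|x|) q(e^u) = 4πN δ` has a negative solution on the plane that is not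
radially symmetric about the origin, nor about any other point. -/
theorem result : ∃ q : ℝ → ℝ, ∀ (N k : ℝ) (m : ℕ), 0 ≤ N → 0 ≤ k → 1 ≤ m → N + k = m →
    Hypotheses (fun t => Real.exp (2 * t) * (Real.exp t) ^ (2 * k)) (fun u => q (Real.exp u)) ∧
    ∃ u : Plane → ℝ, IsSolution N (fun r => r ^ (2 * k)) q u ∧ (∀ x, x ≠ 0 → u x < 0) ∧
      ∀ c : Plane, ¬ RadialAbout c u := by
  refine ⟨fun s => gg (Real.log s), fun N k m hN hk hm h => ⟨hypotheses k hk, ?_⟩⟩
  obtain ⟨s, hs, hneg⟩ := exists_small N m hN (by linarith)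
  have hq : ∀ x : Plane, x ≠ 0 → gg (Real.log (Real.exp (uu N m s x))) = Real.exp (uu N m s x) := by
    intro x hx
    rw [Real.log_exp, gg_of_le (hneg x hx)]
  have hae : ∀ᵐ x : Plane, x ≠ 0 := by
    rw [ae_iff]; simp
  have hnl : (fun x : Plane => -Δ (WW m s) x) =ᵐ[volume]
      fun x : Plane => ‖x‖ ^ (2 * k) * gg (Real.log (Real.exp (uu N m s x))) := by
    filter_upwards [hae] with x hx
    rw [hq x hx, weight_exp hs h hx]
  have hcont : Continuous (fun x : Plane => -Δ (WW m s) x) :=
    (Pool.Agent.H314.CS.LL.continuous_laplacian (contDiff_WW m s 2)).neg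
  refine ⟨uu N m s, ⟨contDiffOn_uu N m s ⊤, locInt_uu N m s, ?_, ?_⟩, ?_, ?_⟩
  · have h1 : LocallyIntegrable (fun x : Plane => -Δ (WW m s) x) := hcont.locallyIntegrable
    exact h1.congr hnl
  · intro φ hφ hc
    have hφ2 : ContDiff ℝ 2 φ := by exact_mod_cast contDiff_infty.1 hφ 2
    have h1 := dist_uu (N := N) hs h hφ2 hc
    have i1 : Integrable (fun x : Plane => uu N m s x * Δ φ x) :=
      (locInt_uu N m s).integrable_smul_right_of_hasCompactSupport
        (Pool.Agent.H314.CS.LL.continuous_laplacian hφ2)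
        (Pool.Agent.H314.CS.LL.hasCompactSupport_laplacian hφ2 hc)
    have i2 : Integrable (fun x : Plane => ‖x‖ ^ (2 * k) *
        gg (Real.log (Real.exp (uu N m s x))) * φ x) := by
      have i3 : Integrable (fun x : Plane => -Δ (WW m s) x * φ x) :=
        (hcont.mul hφ.continuous).integrable_of_hasCompactSupport hc.mul_left
      refine i3.congr ?_
      filter_upwards [hnl] with x hx
      rw [hx]
    rw [integral_add i1 i2, h1]
    have e1 : ∫ x : Plane, -(‖x‖ ^ (2 * k) * Real.exp (uu N m s x)) * φ x =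
        -∫ x : Plane, ‖x‖ ^ (2 * k) * gg (Real.log (Real.exp (uu N m s x))) * φ x := by
      rw [← integral_neg]
      refine integral_congr_ae ?_
      filter_upwards [hae] with x hx
      rw [hq x hx]
      ring
    rw [e1]
    ring
  · intro x hx
    have := hneg x hx
    linarith
  · intro c hc
    by_cases hc0 : c = 0
    · subst hc0
      exact not_radial_zero N m hs hc
    · rcases eq_or_lt_of_le hN with h0 | h0
      · subst h0
        exact not_radial_max hm hs hc0 hc
      · exact not_radial_pos h0 m s hc0 hc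

end Pool.Agent.Results.MP_ad2fa1_an.NonRadial
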